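import Mathlib
import Pool.Agent.P8H3.RA.Stm

/-!
Project RA, package URU: a unirational variety of positive dimension is uniruled.
-/

set_option autoImplicit false

namespace Pool.Agent.P8H22.RA

open Pool.Agent.P8H3.RA

theorem uru_zero {k K : Type} [Field k] [Field K] [Algebra k K]
    (φ : K →ₐ[k] FractionRing (MvPolynomial (Fin 0) k)) (y : K) :
    ∃ c : k, y = algebraMap k K c := by
  obtain ⟨a, b, hb, hab⟩ := IsFractionRing.div_surjective (A := MvPolynomial (Fin 0) k) (φ y)
  have ha := MvPolynomial.eq_C_of_isEmpty a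
  have hb' := MvPolynomial.eq_C_of_isEmpty b
  refine ⟨MvPolynomial.coeff 0 a / MvPolynomial.coeff 0 b, ?_⟩
  have hinj : Function.Injective φ := φ.toRingHom.injective
  apply hinj
  have e : ∀ c : k, algebraMap (MvPolynomial (Fin 0) k) (FractionRing (MvPolynomial (Fin 0) k))
      (MvPolynomial.C c) = algebraMap k _ c := fun c => by
    rw [← MvPolynomial.algebraMap_eq, ← IsScalarTower.algebraMap_apply]
  rw [AlgHom.commutes, ← hab, map_div₀, ← e, ← e, ← ha, ← hb']

/-- The embedding of the rational functions in `m + 1` variables in `F(s)`. -/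
theorem exists_emb (k : Type) [Field k] (m : ℕ) :
    Nonempty (FractionRing (MvPolynomial (Fin (m + 1)) k) →ₐ[k]
      RatFunc (FractionRing (MvPolynomial (Fin m) k))) := by
  let F := FractionRing (MvPolynomial (Fin m) k)
  let g₁ : MvPolynomial (Fin (m + 1)) k →ₐ[k] Polynomial (MvPolynomial (Fin m) k) :=
    (MvPolynomial.finSuccEquiv k m).toAlgHom
  let g₂ : Polynomial (MvPolynomial (Fin m) k) →ₐ[k] Polynomial F :=
    Polynomial.mapAlgHom (IsScalarTower.toAlgHom k (MvPolynomial (Fin m) k) F)
  let g₃ : Polynomial F →ₐ[k] RatFunc F := IsScalarTower.toAlgHom k (Polynomial F) (RatFunc F)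
  have h₁ : Function.Injective g₁ := (MvPolynomial.finSuccEquiv k m).injective
  have h₂ : Function.Injective g₂ :=
    Polynomial.map_injective _ (IsFractionRing.injective (MvPolynomial (Fin m) k) F)
  have h₃ : Function.Injective g₃ := IsFractionRing.injective (Polynomial F) (RatFunc F)
  exact ⟨IsFractionRing.liftAlgHom (g := (g₃.comp g₂).comp g₁) ((h₃.comp h₂).comp h₁)⟩

theorem uru_ind (k K : Type) [Field k] [Field K] [Algebra k K] : ∀ m : ℕ,
    (K →ₐ[k] FractionRing (MvPolynomial (Fin m) k)) →
    (∀ y : K, ∃ c : k, y = algebraMap k K c) ∨ Uniruled k K := by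
  intro m
  induction m with
  | zero => exact fun φ => Or.inl (uru_zero φ)
  | succ m ih =>
    intro φ
    obtain ⟨ψ⟩ := exists_emb k m
    by_cases hex : ∃ y : K, ∀ c : FractionRing (MvPolynomial (Fin m) k),
        (ψ.comp φ) y ≠ RatFunc.C c
    · obtain ⟨y, hy⟩ := hex
      exact Or.inr ⟨FractionRing (MvPolynomial (Fin m) k), inferInstance, inferInstance,
        ψ.comp φ, y, hy⟩
    · push Not at hex
      let ι : FractionRing (MvPolynomial (Fin m) k) →ₐ[k]
          RatFunc (FractionRing (MvPolynomial (Fin m) k)) :=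
        IsScalarTower.toAlgHom k _ _
      have hι : Function.Injective ι := RingHom.injective _
      have hmem : ∀ y, (ψ.comp φ) y ∈ ι.range := by
        intro y
        obtain ⟨c, hc⟩ := hex y
        exact ⟨c, hc.symm⟩
      exact ih ((AlgEquiv.ofInjective ι hι).symm.toAlgHom.comp
        ((ψ.comp φ).codRestrict ι.range hmem))

theorem uru : S_URU := by
  intro k K _ _ _ h
  obtain ⟨m, ⟨φ⟩⟩ := h
  exact uru_ind k K m φ

end Pool.Agent.P8H22.RA
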